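import Pool.Agent.W661.RC.Stm2
import Pool.Agent.W683.RC.Bas

/-! RC-MAS: mass of the choices which are not very good. -/

set_option autoImplicit false

namespace Pool.Agent.W822.RC.MAS

open Matrix Pool.Agent.W661.RC Pool.Agent.W683.RC
open scoped ComplexOrder

/-! ### resolvents -/

lemma base_pd {d : ℕ} (lam : ℝ) (h : 0 ≤ lam) (Q : Mt d) (hQ : Q.PosSemidef) :
    (1 + (lam : ℂ) • Q).PosDef := by
  apply Matrix.PosDef.one.add_posSemidef
  apply hQ.smul
  exact_mod_cast h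

lemma gg_psd {d : ℕ} (lam : ℝ) (h : 0 ≤ lam) (Q : Mt d) (hQ : Q.PosSemidef) :
    (gg lam Q).PosSemidef := (base_pd lam h Q hQ).inv.posSemidef

lemma gg_mul {d : ℕ} (lam : ℝ) (h : 0 ≤ lam) (Q : Mt d) (hQ : Q.PosSemidef) :
    (1 + (lam : ℂ) • Q) * gg lam Q = 1 :=
  Matrix.mul_nonsing_inv _ ((Matrix.isUnit_iff_isUnit_det _).1 (base_pd lam h Q hQ).isUnit)

lemma gh_psd {d : ℕ} (lam : ℝ) (h : 0 ≤ lam) (Q : Mt d) (hQ : Q.PosSemidef) :
    (gg lam Q * hh lam Q).PosSemidef := by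
  have h1 := gg_mul lam h Q hQ
  have h2 : hh lam Q = (lam : ℂ) • (Q * gg lam Q) := by
    unfold hh
    rw [add_mul, one_mul, smul_mul_assoc] at h1
    rw [← h1]
    abel
  have h3 : (gg lam Q)ᴴ = gg lam Q := (gg_psd lam h Q hQ).isHermitian
  have h4 : gg lam Q * hh lam Q = (lam : ℂ) • ((gg lam Q)ᴴ * Q * gg lam Q) := by
    rw [h2, h3, mul_smul_comm, Matrix.mul_assoc]
  rw [h4]
  apply (hQ.conjTranspose_mul_mul_same (gg lam Q)).smul
  exact_mod_cast h

lemma Qs_psd {d : ℕ} (f : ℕ → Mt d) (n i : ℕ) (hi : i ≤ n) (hf : ∀ j < n, IsPr (f j)) :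
    (Qs f i).PosSemidef := by
  unfold Qs
  apply Matrix.posSemidef_sum
  intro j hj
  exact pr_psd (hf j ((Finset.mem_range.1 hj).trans_le hi))

lemma gfg_psd {d : ℕ} (lam : ℝ) (h : 0 ≤ lam) (Q f : Mt d) (hQ : Q.PosSemidef) (hf : IsPr f) :
    (gg lam Q * f * gg lam Q).PosSemidef := by
  have h3 : (gg lam Q)ᴴ = gg lam Q := (gg_psd lam h Q hQ).isHermitian
  have h4 := (pr_psd hf).conjTranspose_mul_mul_same (gg lam Q)
  rwa [h3] at h4

/-- Markov inequality for sums -/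
lemma markov (s : Finset ℕ) (X w : ℕ → ℝ) (c B : ℝ) (hc : 0 < c) (hX : ∀ i ∈ s, 0 ≤ X i)
    (hB : ∑ i ∈ s, X i ≤ B) (p : ℕ → Prop) [DecidablePred p]
    (hp : ∀ i ∈ s, p i → c * w i ≤ X i) :
    ∑ i ∈ s.filter p, w i ≤ B / c := by
  rw [le_div_iff₀ hc, mul_comm, Finset.mul_sum]
  calc ∑ i ∈ s.filter p, c * w i ≤ ∑ i ∈ s.filter p, X i := by
        apply Finset.sum_le_sum
        intro i hi
        rw [Finset.mem_filter] at hi
        exact hp i hi.1 hi.2
    _ ≤ ∑ i ∈ s, X i := Finset.sum_le_sum_of_subset_of_nonneg (Finset.filter_subset _ _)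
        (fun i hi _ => hX i hi)
    _ ≤ B := hB

/-- union bound for filters -/
lemma filt_union (s : Finset ℕ) (w : ℕ → ℝ) (hw : ∀ i ∈ s, 0 ≤ w i) (p q r : ℕ → Prop)
    [DecidablePred p] [DecidablePred q] [DecidablePred r]
    (h : ∀ i ∈ s, p i → q i ∨ r i) :
    ∑ i ∈ s.filter p, w i ≤ ∑ i ∈ s.filter q, w i + ∑ i ∈ s.filter r, w i := by
  calc ∑ i ∈ s.filter p, w i ≤ ∑ i ∈ s.filter q ∪ s.filter r, w i := by
        apply Finset.sum_le_sum_of_subset_of_nonneg
        · intro i hi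
          rw [Finset.mem_filter] at hi
          rw [Finset.mem_union, Finset.mem_filter, Finset.mem_filter]
          rcases h i hi.1 hi.2 with h1 | h1
          · exact Or.inl ⟨hi.1, h1⟩
          · exact Or.inr ⟨hi.1, h1⟩
        · intro i hi _
          rw [Finset.mem_union, Finset.mem_filter, Finset.mem_filter] at hi
          rcases hi with h1 | h1
          · exact hw i h1.1
          · exact hw i h1.1
    _ ≤ _ := by
        have h1 := Finset.sum_union_inter (s₁ := s.filter q) (s₂ := s.filter r) (f := w)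
        have h2 : 0 ≤ ∑ i ∈ s.filter q ∩ s.filter r, w i := by
          apply Finset.sum_nonneg
          intro i hi
          rw [Finset.mem_inter, Finset.mem_filter] at hi
          exact hw i hi.1.1
        linarith

/-- sum over `i` and `s` of the commutators with the resolvents -/
lemma comm_sum (hB : ResBP) (d k n : ℕ) (f : ℕ → Mt d) (lam : ℝ) (v : Fin k → Mt d) (E : ℝ)
    (hlam : 1 ≤ lam) (hf : ∀ i < n, IsPr (f i)) (hv : ∀ s, (v s)ᴴ * v s = 1)
    (hE : ∑ i ∈ Finset.range n, ∑ s, hs (v s * f i - f i * v s) ≤ E) :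
    ∑ i ∈ Finset.range n, ∑ s, hs ((v s * gg lam (Qs f i) - gg lam (Qs f i) * v s) * f i)
      ≤ 7 * (lam + 1) * E ∧
    ∑ s, hs (v s * gg lam (Qs f n) - gg lam (Qs f n) * v s) ≤ 3 * lam * E := by
  have h := fun s => hB d n f lam (v s) hlam hf (hv s)
  rw [Finset.sum_comm] at hE
  constructor
  · rw [Finset.sum_comm]
    calc ∑ s, ∑ i ∈ Finset.range n,
          hs ((v s * gg lam (Qs f i) - gg lam (Qs f i) * v s) * f i)
        ≤ ∑ s, 7 * (lam + 1) * ∑ i ∈ Finset.range n, hs (v s * f i - f i * v s) :=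
          Finset.sum_le_sum fun s _ => (h s).1
      _ = 7 * (lam + 1) * ∑ s, ∑ i ∈ Finset.range n, hs (v s * f i - f i * v s) := by
          rw [Finset.mul_sum]
      _ ≤ 7 * (lam + 1) * E := by gcongr
  · calc ∑ s, hs (v s * gg lam (Qs f n) - gg lam (Qs f n) * v s)
        ≤ ∑ s, 3 * lam * ∑ i ∈ Finset.range n, hs (v s * f i - f i * v s) :=
          Finset.sum_le_sum fun s _ => (h s).2
      _ = 3 * lam * ∑ s, ∑ i ∈ Finset.range n, hs (v s * f i - f i * v s) := by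
          rw [Finset.mul_sum]
      _ ≤ 3 * lam * E := by gcongr

open Classical in
theorem main (hA : ResAP) (hB : ResBP) (hD : DarP) (hP : Pic1P) : MasP := by
  intro d k C η δ S M n e2 e3 δ1 δt θ B3 f hM hη hC he2 he3 he31 hδ1 hδ hrho hθ hG hN hDt hB3
  set lam : ℝ := 2 ^ M with hlam
  have hlam1 : 1 ≤ lam := one_le_pow₀ (by norm_num)
  have hlam0 : 0 ≤ lam := by linarith
  have hpr : ∀ i < n, IsPr (f i) := fun i hi => (hG i hi).1.pr
  have hft : ∀ i ∈ Finset.range n, 0 ≤ tr (f i) := fun i hi =>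
    (hG i (Finset.mem_range.1 hi)).1.nz.le
  have hQ : ∀ i ≤ n, (Qs f i).PosSemidef := fun i hi => Qs_psd f n i hi hpr
  have hgfg : ∀ i ∈ Finset.range n, (gg lam (Qs f i) * f i * gg lam (Qs f i)).PosSemidef := by
    intro i hi
    have := Finset.mem_range.1 hi
    exact gfg_psd lam hlam0 _ _ (hQ i this.le) (hpr i this)
  set N : ℝ := ∑ i ∈ Finset.range n, tr (f i) with hNd
  have hN0 : 0 ≤ N := Finset.sum_nonneg hft
  have hd0 : (0 : ℝ) ≤ d := Nat.cast_nonneg d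
  set w : ℝ := √(k * η) with hw
  have hw0 : 0 ≤ w := Real.sqrt_nonneg _
  -- the energies
  have hE : ∑ i ∈ Finset.range n, ∑ s, hs (S.u s * f i - f i * S.u s) ≤ 64 * w * d := by
    calc ∑ i ∈ Finset.range n, ∑ s, hs (S.u s * f i - f i * S.u s)
        ≤ ∑ i ∈ Finset.range n, 32 * w * tr (f i) := by
          apply Finset.sum_le_sum
          intro i hi
          exact (hG i (Finset.mem_range.1 hi)).1.inv
      _ = 32 * w * N := by rw [hNd, Finset.mul_sum]
      _ ≤ 32 * w * (2 * d) := by gcongr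
      _ = _ := by ring
  have hE' : ∑ i ∈ Finset.range n, ∑ s, hs ((S.u s)ᴴ * f i - f i * (S.u s)ᴴ) ≤ 64 * w * d := by
    refine le_trans (le_of_eq ?_) hE
    apply Finset.sum_congr rfl
    intro i hi
    apply Finset.sum_congr rfl
    intro s _
    have hf : (f i)ᴴ = f i := (hpr i (Finset.mem_range.1 hi)).1
    have h : (S.u s)ᴴ * f i - f i * (S.u s)ᴴ = -(S.u s * f i - f i * S.u s)ᴴ := by
      rw [Matrix.conjTranspose_sub, Matrix.conjTranspose_mul, Matrix.conjTranspose_mul, hf]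
      abel
    rw [h, hs_neg, hs_conjTranspose]
  have hS1 := comm_sum hB d k n f lam S.u _ hlam1 hpr S.hu hE
  have hS2 := comm_sum hB d k n f lam (fun s => (S.u s)ᴴ) _ hlam1 hpr
    (fun s => unit_conj (S.hu s)) hE'
  -- the sum of the innovations
  set X : Mt d := ∑ i ∈ Finset.range n, gg lam (Qs f i) * f i * gg lam (Qs f i) with hX
  have hX2 : (((2 : ℝ) : ℂ) • (1 : Mt d) - X).PosSemidef := by
    have h1 : Le X (((1 + 1 / lam : ℝ) : ℂ) • (1 - gg lam (Qs f n))) := hA d n f lam hlam1 hpr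
    have h2 : Le (((1 + 1 / lam : ℝ) : ℂ) • (1 - gg lam (Qs f n)))
        (((2 : ℝ) : ℂ) • (1 : Mt d)) := by
      have e : ((2 : ℝ) : ℂ) • (1 : Mt d) - ((1 + 1 / lam : ℝ) : ℂ) • (1 - gg lam (Qs f n)) =
          ((1 - 1 / lam : ℝ) : ℂ) • (1 : Mt d) + ((1 + 1 / lam : ℝ) : ℂ) • gg lam (Qs f n) := by
        rw [smul_sub]
        have : ((2 : ℝ) : ℂ) • (1 : Mt d) = ((1 - 1 / lam : ℝ) : ℂ) • (1 : Mt d) +
            ((1 + 1 / lam : ℝ) : ℂ) • (1 : Mt d) := by
          rw [← add_smul, ← Complex.ofReal_add]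
          congr 2
          ring
        rw [this]
        abel
      unfold Le
      rw [e]
      apply Matrix.PosSemidef.add
      · apply psd_smul Matrix.PosSemidef.one
        rw [sub_nonneg, div_le_one (by linarith)]
        exact hlam1
      · apply psd_smul (gg_psd lam hlam0 _ (hQ n le_rfl))
        positivity
    exact Le_trans h1 h2
  have hΦ : ∀ Y : Mt d, (((2 : ℝ) : ℂ) • (1 : Mt d) - Y).PosSemidef →
      (((2 : ℝ) : ℂ) • (1 : Mt d) - S.Φ Y).PosSemidef := by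
    intro Y hY
    have := S.pos _ hY
    rwa [map_sub, map_smul, S.one] at this
  have htrD : ∀ Y : Mt d, (((2 : ℝ) : ℂ) • (1 : Mt d) - Y).PosSemidef →
      tr (S.D * Y) ≤ 2 * (δt * d) := by
    intro Y hY
    have h1 := tr_mul_nonneg S.hD hY
    rw [Matrix.mul_sub, tr_sub, mul_smul_comm, Matrix.mul_one, tr_smul] at h1
    linarith
  have hT3 : ∑ i ∈ Finset.range n, tr (S.D * (gg lam (Qs f i) * f i * gg lam (Qs f i)))
      ≤ 2 * (δt * d) := by
    have h1 := htrD X hX2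
    rwa [hX, Finset.mul_sum, tr_sum] at h1
  have hT4 : ∑ i ∈ Finset.range n, tr (S.D * S.Φ (gg lam (Qs f i) * f i * gg lam (Qs f i)))
      ≤ 2 * (δt * d) := by
    have h1 := htrD (S.Φ X) (hΦ _ hX2)
    rwa [hX, map_sum, Finset.mul_sum, tr_sum] at h1
  have hT5 : ∑ i ∈ Finset.range n,
      tr (S.D * S.Φ (S.Φ (gg lam (Qs f i) * f i * gg lam (Qs f i)))) ≤ 2 * (δt * d) := by
    have h1 := htrD (S.Φ (S.Φ X)) (hΦ _ (hΦ _ hX2))
    rwa [hX, map_sum, map_sum, Finset.mul_sum, tr_sum] at h1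
  -- the five conditions
  let c1 : ℕ → Prop := fun i =>
    ¬ ∑ s, hs ((S.u s * gg lam (Qs f i) - gg lam (Qs f i) * S.u s) * f i) ≤ e2 * tr (f i)
  let c2 : ℕ → Prop := fun i =>
    ¬ ∑ s, hs (((S.u s)ᴴ * gg lam (Qs f i) - gg lam (Qs f i) * (S.u s)ᴴ) * f i) ≤ e2 * tr (f i)
  let c3 : ℕ → Prop := fun i =>
    ¬ tr (S.D * (gg lam (Qs f i) * f i * gg lam (Qs f i))) ≤ δ1 * tr (f i)
  let c4 : ℕ → Prop := fun i =>
    ¬ tr (S.D * S.Φ (gg lam (Qs f i) * f i * gg lam (Qs f i))) ≤ δ1 * tr (f i)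
  let c5 : ℕ → Prop := fun i =>
    ¬ tr (S.D * S.Φ (S.Φ (gg lam (Qs f i) * f i * gg lam (Qs f i)))) ≤ δ1 * tr (f i)
  let c6 : ℕ → Prop := fun i =>
    ¬ tr (gg lam (Qs f i) * hh lam (Qs f i) * f i) ≤ θ * tr (f i)
  let bad : ℕ → Prop := fun i => c1 i ∨ c2 i ∨ c3 i ∨ c4 i ∨ c5 i
  have m1 : ∑ i ∈ (Finset.range n).filter c1, tr (f i) ≤ 7 * (lam + 1) * (64 * w * d) / e2 := by
    apply markov _ (fun i => ∑ s, hs ((S.u s * gg lam (Qs f i) - gg lam (Qs f i) * S.u s) * f i))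
      _ _ _ he2 (fun i _ => Finset.sum_nonneg fun s _ => hs_nonneg _) hS1.1
    intro i _ hi
    exact (not_le.1 hi).le
  have m2 : ∑ i ∈ (Finset.range n).filter c2, tr (f i) ≤ 7 * (lam + 1) * (64 * w * d) / e2 := by
    apply markov _
      (fun i => ∑ s, hs (((S.u s)ᴴ * gg lam (Qs f i) - gg lam (Qs f i) * (S.u s)ᴴ) * f i))
      _ _ _ he2 (fun i _ => Finset.sum_nonneg fun s _ => hs_nonneg _) hS2.1
    intro i _ hi
    exact (not_le.1 hi).le
  have m3 : ∑ i ∈ (Finset.range n).filter c3, tr (f i) ≤ 2 * (δt * d) / δ1 := by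
    apply markov _ (fun i => tr (S.D * (gg lam (Qs f i) * f i * gg lam (Qs f i))))
      _ _ _ hδ1 (fun i hi => tr_mul_nonneg S.hD (hgfg i hi)) hT3
    intro i _ hi
    exact (not_le.1 hi).le
  have m4 : ∑ i ∈ (Finset.range n).filter c4, tr (f i) ≤ 2 * (δt * d) / δ1 := by
    apply markov _ (fun i => tr (S.D * S.Φ (gg lam (Qs f i) * f i * gg lam (Qs f i))))
      _ _ _ hδ1 (fun i hi => tr_mul_nonneg S.hD (S.pos _ (hgfg i hi))) hT4
    intro i _ hi
    exact (not_le.1 hi).le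
  have m5 : ∑ i ∈ (Finset.range n).filter c5, tr (f i) ≤ 2 * (δt * d) / δ1 := by
    apply markov _ (fun i => tr (S.D * S.Φ (S.Φ (gg lam (Qs f i) * f i * gg lam (Qs f i)))))
      _ _ _ hδ1 (fun i hi => tr_mul_nonneg S.hD (S.pos _ (S.pos _ (hgfg i hi)))) hT5
    intro i _ hi
    exact (not_le.1 hi).le
  have hbad : ∑ i ∈ (Finset.range n).filter bad, tr (f i) ≤ B3 := by
    have u1 := filt_union (Finset.range n) (fun i => tr (f i)) hft bad c1
      (fun i => c2 i ∨ c3 i ∨ c4 i ∨ c5 i) (fun i _ h => h)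
    have u2 := filt_union (Finset.range n) (fun i => tr (f i)) hft
      (fun i => c2 i ∨ c3 i ∨ c4 i ∨ c5 i) c2 (fun i => c3 i ∨ c4 i ∨ c5 i) (fun i _ h => h)
    have u3 := filt_union (Finset.range n) (fun i => tr (f i)) hft
      (fun i => c3 i ∨ c4 i ∨ c5 i) c3 (fun i => c4 i ∨ c5 i) (fun i _ h => h)
    have u4 := filt_union (Finset.range n) (fun i => tr (f i)) hft
      (fun i => c4 i ∨ c5 i) c4 c5 (fun i _ h => h)
    have h1 : ∑ i ∈ (Finset.range n).filter bad, tr (f i) ≤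
        (7 * (lam + 1) * (64 * w * d) / e2) + ((7 * (lam + 1) * (64 * w * d) / e2) +
          (2 * (δt * d) / δ1 + (2 * (δt * d) / δ1 + 2 * (δt * d) / δ1))) :=
      u1.trans (add_le_add m1 (u2.trans (add_le_add m2 (u3.trans (add_le_add m3
        (u4.trans (add_le_add m4 m5)))))))
    refine h1.trans ?_
    rw [hB3]
    have h2 : (7 * (lam + 1) * (64 * w * d) / e2) + ((7 * (lam + 1) * (64 * w * d) / e2) +
          (2 * (δt * d) / δ1 + (2 * (δt * d) / δ1 + 2 * (δt * d) / δ1))) =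
        (896 * (lam + 1) / e2 * w + 6 * δt / δ1) * d := by
      field_simp
      ring
    rw [h2]
    gcongr
    norm_num
  have hbad0 : 0 ≤ ∑ i ∈ (Finset.range n).filter bad, tr (f i) :=
    Finset.sum_nonneg fun i hi => hft i (Finset.mem_filter.1 hi).1
  have hB30 : 0 ≤ B3 := hbad0.trans hbad
  -- the projections `P i`
  set t0 : ℝ := 48 * rho k C η e2 + 6 * e3 with ht0
  have hrho0 : 0 ≤ rho k C η e2 := Real.sqrt_nonneg _
  have ht00 : 0 ≤ t0 := by positivity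
  have hex : ∀ i, i < n → ¬ bad i → ∃ P : Mt d, IsPr P ∧ f i * P = P ∧
      Le ((1 / 2 : ℂ) • P) (P * gg lam (Qs f i) * P) ∧ tr (f i) - tr P ≤ t0 * tr (f i) := by
    intro i hi hb
    have hb' : ¬ (c1 i ∨ c2 i ∨ c3 i ∨ c4 i ∨ c5 i) := hb
    rw [not_or, not_or, not_or, not_or] at hb'
    obtain ⟨b1, b2, b3, b4, _⟩ := hb'
    exact hP d k C η δ S lam e2 e3 δ1 (Qs f i) (f i) hη hC hlam1 (hQ i hi.le) he2.le he3 he31
      hδ1.le hδ hrho (hG i hi).1 (hG i hi).2 (not_not.1 b1) (not_not.1 b2) (not_not.1 b3)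
      (not_not.1 b4)
  let P : ℕ → Mt d := fun i => if h : i < n ∧ ¬ bad i then (hex i h.1 h.2).choose else 0
  have hPg : ∀ i (h : i < n ∧ ¬ bad i), P i = (hex i h.1 h.2).choose := fun i h => dif_pos h
  have hPb : ∀ i, i < n → bad i → P i = 0 := fun i _ h => dif_neg fun h' => h'.2 h
  have hP1 : ∀ i < n, IsPr (P i) ∧ f i * P i = P i := by
    intro i hi
    by_cases hb : bad i
    · rw [hPb i hi hb]
      exact ⟨pr_zero, Matrix.mul_zero _⟩
    · rw [hPg i ⟨hi, hb⟩]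
      have := (hex i hi hb).choose_spec
      exact ⟨this.1, this.2.1⟩
  have hP2 : ∀ i < n, Le ((1 / 2 : ℂ) • P i) (P i * gg (2 ^ M) (Qs f i) * P i) := by
    intro i hi
    by_cases hb : bad i
    · rw [hPb i hi hb, smul_zero, Matrix.mul_zero]
      exact Le_refl _
    · rw [hPg i ⟨hi, hb⟩]
      exact (hex i hi hb).choose_spec.2.2.1
  have hP3 : ∑ i ∈ Finset.range n, (tr (f i) - tr (P i)) ≤ t0 * (2 * d) + B3 := by
    have h1 : ∀ i ∈ Finset.range n,
        tr (f i) - tr (P i) ≤ t0 * tr (f i) + if bad i then tr (f i) else 0 := by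
      intro i hi
      have hi' := Finset.mem_range.1 hi
      by_cases hb : bad i
      · rw [hPb i hi' hb, tr_zero, if_pos hb]
        have : 0 ≤ t0 * tr (f i) := mul_nonneg ht00 (hft i hi)
        linarith
      · rw [hPg i ⟨hi', hb⟩, if_neg hb, add_zero]
        exact (hex i hi' hb).choose_spec.2.2.2
    calc ∑ i ∈ Finset.range n, (tr (f i) - tr (P i))
        ≤ ∑ i ∈ Finset.range n, (t0 * tr (f i) + if bad i then tr (f i) else 0) :=
          Finset.sum_le_sum h1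
      _ = t0 * N + ∑ i ∈ (Finset.range n).filter bad, tr (f i) := by
          rw [Finset.sum_add_distrib, ← Finset.mul_sum, Finset.sum_filter]
      _ ≤ t0 * (2 * d) + B3 := by gcongr
  obtain ⟨D1, D2⟩ := hD d n M f P hM hpr hP1 hP2
  have hM2 : (2 : ℝ) ≤ M := by exact_mod_cast hM
  have hMpos : (0 : ℝ) < M := by linarith
  have hM1pos : (0 : ℝ) < (M : ℝ) - 1 := by linarith
  have D1' : ∑ i ∈ Finset.range n, tr (gg lam (Qs f i) * hh lam (Qs f i) * f i) ≤
      (40 / M + 4 * t0) * d + 2 * B3 := by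
    refine D1.trans ?_
    have h1 : 20 / (M : ℝ) * N ≤ 20 / M * (2 * d) := by gcongr
    have h2 : 20 / (M : ℝ) * (2 * d) = 40 / M * d := by ring
    nlinarith
  refine ⟨?_, ?_, ?_⟩
  · have m6 : ∑ i ∈ (Finset.range n).filter c6, tr (f i) ≤
        ((40 / M + 4 * t0) * d + 2 * B3) / θ := by
      apply markov _ (fun i => tr (gg lam (Qs f i) * hh lam (Qs f i) * f i)) _ _ _ hθ _ D1'
      · intro i _ hi
        exact (not_le.1 hi).le
      · intro i hi
        have hi' := Finset.mem_range.1 hi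
        exact tr_mul_nonneg (gh_psd lam hlam0 _ (hQ i hi'.le)) (pr_psd (hpr i hi'))
    have u := filt_union (Finset.range n) (fun i => tr (f i)) hft
      (fun i => ¬ VG S lam e2 δ1 θ (Qs f i) (f i)) bad c6 (by
        intro i _ h
        by_contra hcon
        rw [not_or] at hcon
        have hb' : ¬ (c1 i ∨ c2 i ∨ c3 i ∨ c4 i ∨ c5 i) := hcon.1
        rw [not_or, not_or, not_or, not_or] at hb'
        obtain ⟨b1, b2, b3, b4, b5⟩ := hb'
        exact h ⟨not_not.1 b1, not_not.1 b2, not_not.1 b3, not_not.1 b4, not_not.1 b5,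
          not_not.1 hcon.2⟩)
    refine u.trans ((add_le_add hbad m6).trans (le_of_eq ?_))
    field_simp
    ring
  · refine D2.trans ?_
    have h1 : 20 / ((M : ℝ) - 1) * N ≤ 20 / ((M : ℝ) - 1) * (2 * d) := by gcongr
    have h2 : 20 / ((M : ℝ) - 1) * (2 * d) = 40 / ((M : ℝ) - 1) * d := by ring
    nlinarith
  · refine hS1.2.trans (le_of_eq ?_)
    ring

end Pool.Agent.W822.RC.MAS
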